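import Pool.Agent.R798.Pseudofan.Three

/-!
# The matrix and the collection of cones
-/

set_option autoImplicit false
set_option maxRecDepth 100000

namespace Pool.Agent.R798.Pseudofan

/-- the entries of the matrix in one number: the entries plus 64 are the digits in base 128 -/
def vN : ℕ := 214505893679936161844631753300562701043580224079222916593992972577157030015324213984679066076188317066044555

/-- the matrix with 3 rows and 17 columns -/
def V : Fin 17 → Fin 3 → ℤ := fun i k =>
  Int.subNatNat (Nat.mod (Nat.div vN (Nat.pow 128 (Nat.add (Nat.mul 3 i.1) k.1))) 128) 64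

/-- the 60 cones -/
def TL : List (Fin 17 × Fin 17 × Fin 17) := [(0, 1, 5), (0, 1, 12), (0, 5, 11), (1, 5, 8), (0, 12, 13), (1, 12, 15),
  (0, 10, 11), (4, 5, 11), (1, 3, 8), (5, 7, 8), (0, 7, 13), (12, 13, 15),
  (1, 6, 15), (0, 9, 10), (6, 10, 11), (4, 5, 7), (4, 11, 15), (1, 3, 10),
  (3, 6, 8), (4, 7, 8), (0, 2, 7), (7, 9, 13), (3, 13, 15), (1, 2, 6),
  (4, 6, 15), (0, 8, 9), (9, 10, 12), (3, 6, 10), (6, 8, 11), (8, 11, 15),
  (1, 10, 13), (2, 4, 8), (0, 2, 15), (2, 7, 9), (3, 9, 13), (3, 15, 16),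
  (1, 2, 13), (2, 5, 6), (4, 6, 16), (0, 8, 15), (8, 9, 12), (10, 12, 14),
  (4, 10, 13), (2, 4, 10), (2, 8, 13), (2, 15, 16), (2, 5, 9), (3, 9, 14),
  (3, 11, 16), (5, 6, 16), (4, 9, 16), (8, 12, 14), (10, 14, 16), (4, 13, 14),
  (2, 10, 16), (8, 13, 14), (5, 9, 16), (3, 11, 14), (4, 9, 14), (11, 14, 16)]

/-- for each cone an earlier cone which shares a facet with it -/
def parents : List ℕ := [0, 0, 0, 0, 1, 1, 2, 2, 3, 3, 4, 4, 5, 6, 6, 7, 7, 8, 8, 9, 10, 10, 11, 12, 12, 13, 13, 14, 14, 16, 17, 19, 20, 20, 21, 22, 23, 23, 24, 25, 25, 26, 30, 31, 31, 32, 33, 34, 35, 37, 38, 40, 41, 42, 43, 44, 46, 47, 47, 48]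

/-- the index set of a cone -/
def tset (t : Fin 17 × Fin 17 × Fin 17) : Finset (Fin 17) := {t.1, t.2.1, t.2.2}

/-- the collection of cones -/
def C : Finset (Finset (Fin 17)) := (TL.map tset).toFinset

theorem mem_C {I : Finset (Fin 17)} : I ∈ C ↔ ∃ t ∈ TL, tset t = I := by
  simp [C]

/-- membership in the index set of a cone -/
def memB (t : Fin 17 × Fin 17 × Fin 17) (i : Fin 17) : Bool := i == t.1 || i == t.2.1 || i == t.2.2

theorem memB_iff {t : Fin 17 × Fin 17 × Fin 17} {i : Fin 17} : memB t i = true ↔ i ∈ tset t := by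
  simp [memB, tset, or_assoc]

/-- the test for a cone of the family -/
def chkMB (a b c : Fin 17) : Bool :=
  !(D V a b c == 0) && (List.finRange 17).all (fun j => j == a || j == b || j == c ||
    decide (D V j b c * D V a b c < 0) || decide (D V a j c * D V a b c < 0) ||
      decide (D V a b j * D V a b c < 0))

/-- the third element -/
def third (t : Fin 17 × Fin 17 × Fin 17) (p q : Fin 17) : Fin 17 :=
  bif !(t.1 == p) && !(t.1 == q) then t.1 else
    bif !(t.2.1 == p) && !(t.2.1 == q) then t.2.1 else t.2.2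

/-- the test for the facet `{p, q}` of the cone `t = {p, q, i}` -/
def chkF (t : Fin 17 × Fin 17 × Fin 17) (p q i : Fin 17) : Bool :=
  TL.any (fun t' => memB t' p && memB t' q && !(memB t' i) &&
    decide (D V p q i * D V p q (third t' p q) < 0) &&
      TL.all (fun t'' => !(memB t'' p && memB t'' q) || t'' == t || t'' == t'))

theorem c1 : TL.all (fun t => decide (t.1 < t.2.1) && decide (t.2.1 < t.2.2)) = true := by
  decide +kernel

theorem c2 : TL.all (fun t => chkMB t.1 t.2.1 t.2.2) = true := by decide +kernel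

theorem c3 : TL.all (fun t => chkF t t.2.1 t.2.2 t.1 && chkF t t.1 t.2.2 t.2.1 &&
    chkF t t.1 t.2.1 t.2.2) = true := by decide +kernel

theorem c4 : (List.finRange 17).all (fun i => TL.any (fun t => memB t i)) = true := by
  decide +kernel

/-- the test for the parent: two different common elements -/
def chkP (s t : Fin 17 × Fin 17 × Fin 17) : Bool :=
  (memB t s.1 && memB t s.2.1) || (memB t s.1 && memB t s.2.2) || (memB t s.2.1 && memB t s.2.2)

theorem c5 : (List.range 60).all (fun k => k == 0 || (decide (parents.getD k 0 < k) &&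
    chkP (TL.getD k (0, 0, 0)) (TL.getD (parents.getD k 0) (0, 0, 0)))) = true := by
  decide +kernel

theorem c5len : TL.length = 60 := by decide +kernel

theorem c6 : (List.finRange 17).all (fun i => (List.finRange 17).all (fun j => i == j ||
    !(V i 0 * V j 1 - V i 1 * V j 0 == 0) || !(V i 0 * V j 2 - V i 2 * V j 0 == 0) ||
      !(V i 1 * V j 2 - V i 2 * V j 1 == 0))) = true := by
  decide +kernel

theorem c7 : (List.finRange 17).all (fun i =>
    Int.gcd (Int.gcd (V i 0) (V i 1)) (V i 2) == 1) = true := by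
  decide +kernel

end Pool.Agent.R798.Pseudofan
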