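import Mathlib

/-!
# Pseudofans and complete simplicial fans: definitions
-/

set_option autoImplicit false

namespace Pool.Agent.R798.Pseudofan

variable {n m : ℕ}

/-- the `i`-th column of the matrix `V`, as a real vector (`V i k` is the `k`-th entry of the
`i`-th column) -/
def col (V : Fin m → Fin n → ℤ) (i : Fin m) : Fin n → ℝ := fun k => (V i k : ℝ)

/-- the closed convex cone spanned by the columns with index in `I` -/
def cone (V : Fin m → Fin n → ℤ) (I : Finset (Fin m)) : Set (Fin n → ℝ) :=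
  {x | ∃ a : Fin m → ℝ, (∀ i, 0 ≤ a i) ∧ x = ∑ i ∈ I, a i • col V i}

/-- `V` is an `F`-matrix: it has rank `n`, no column is zero, no column is a positive multiple of
another column, the columns generate the whole space as a convex cone, and the entries of each
column are coprime. -/
structure IsFMatrix (V : Fin m → Fin n → ℤ) : Prop where
  rank : Submodule.span ℝ (Set.range (col V)) = ⊤
  ne_zero : ∀ i, V i ≠ 0
  not_multiple : ∀ i j, i ≠ j → ¬ ∃ c : ℝ, 0 < c ∧ col V i = c • col V j
  generate : cone V Finset.univ = Set.univ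
  coprime : ∀ i, ∀ d : ℤ, (∀ k, d ∣ V i k) → IsUnit d

/-- `I` is the index set of a cone of the family `𝓜`: the columns with index in `I` are `n`
linearly independent vectors, and the cone they span contains no other column of `V`. -/
def InM (V : Fin m → Fin n → ℤ) (I : Finset (Fin m)) : Prop :=
  I.card = n ∧ (∀ a : Fin m → ℝ, ∑ i ∈ I, a i • col V i = 0 → ∀ i ∈ I, a i = 0) ∧
    ∀ j, col V j ∈ cone V I → j ∈ I

/-- the set `f` is a facet of the simplicial cone spanned by the columns with index in `I` -/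
def HasFacet (V : Fin m → Fin n → ℤ) (I : Finset (Fin m)) (f : Set (Fin n → ℝ)) : Prop :=
  ∃ i ∈ I, f = cone V (I.erase i)

/-- the cones with index sets `I` and `J` lie in the two different closed half-spaces bounded by
a hyperplane which contains `f` -/
def Opposite (V : Fin m → Fin n → ℤ) (I J : Finset (Fin m)) (f : Set (Fin n → ℝ)) : Prop :=
  ∃ u : (Fin n → ℝ) →ₗ[ℝ] ℝ, u ≠ 0 ∧ (∀ x ∈ f, u x = 0) ∧ (∀ x ∈ cone V I, 0 ≤ u x) ∧
    ∀ x ∈ cone V J, u x ≤ 0

/-- A pseudofan of `V`: a collection `C` of cones of `𝓜` (given by their index sets) such that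
every column generates a ray of some cone in `C`, and for every cone `σ` in `C` and every facet
`f` of `σ` exactly one other cone `τ` in `C` has `f` as a facet, and `τ` lies on the other side of
the hyperplane spanned by `f`. -/
structure IsPseudofan (V : Fin m → Fin n → ℤ) (C : Finset (Finset (Fin m))) : Prop where
  sub : ∀ I ∈ C, InM V I
  cover : ∀ i, ∃ I ∈ C, i ∈ I
  facet : ∀ I ∈ C, ∀ f, HasFacet V I f → ∃ J ∈ C, J ≠ I ∧ HasFacet V J f ∧
    (∀ J' ∈ C, J' ≠ I → HasFacet V J' f → J' = J) ∧ Opposite V I J f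

/-- a simplicial cone: the cone spanned by finitely many linearly independent vectors -/
def IsSimplicialCone (σ : Set (Fin n → ℝ)) : Prop :=
  ∃ (k : ℕ) (w : Fin k → (Fin n → ℝ)), LinearIndependent ℝ w ∧
    σ = {x | ∃ a : Fin k → ℝ, (∀ i, 0 ≤ a i) ∧ x = ∑ i, a i • w i}

/-- `F` is a face of the cone `σ` -/
def IsFace (F σ : Set (Fin n → ℝ)) : Prop :=
  ∃ u : (Fin n → ℝ) →ₗ[ℝ] ℝ, (∀ x ∈ σ, 0 ≤ u x) ∧ F = {x | x ∈ σ ∧ u x = 0}

/-- a complete simplicial fan -/
structure IsCompleteSimplicialFan (S : Set (Set (Fin n → ℝ))) : Prop where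
  finite : S.Finite
  simplicial : ∀ σ ∈ S, IsSimplicialCone σ
  face_mem : ∀ σ ∈ S, ∀ F, IsFace F σ → F ∈ S
  inter : ∀ σ ∈ S, ∀ τ ∈ S, IsFace (σ ∩ τ) σ ∧ IsFace (σ ∩ τ) τ
  complete : ⋃₀ S = Set.univ

/-- the cones of dimension `d` of the collection `S` -/
def conesOfDim (S : Set (Set (Fin n → ℝ))) (d : ℕ) : Set (Set (Fin n → ℝ)) :=
  {σ | σ ∈ S ∧ Module.finrank ℝ (Submodule.span ℝ σ) = d}

/-- the complete simplicial fans whose rays are exactly the rays generated by the columns -/
def SF (V : Fin m → Fin n → ℤ) : Set (Set (Set (Fin n → ℝ))) :=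
  {S | IsCompleteSimplicialFan S ∧ conesOfDim S 1 = Set.range (fun i => cone V {i})}

end Pool.Agent.R798.Pseudofan
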