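import Pool.Agent.R798.Pseudofan.Main

/-!
# Two cones of the collection have intersecting interiors
-/

set_option autoImplicit false

namespace Pool.Agent.R798.Pseudofan

theorem mem_interior {m : ℕ} {V : Fin m → Fin 3 → ℤ} {a b c : Fin m} (hab : a ≠ b)
    (hac : a ≠ c) (hbc : b ≠ c) (hD : 0 < det3 (col V a) (col V b) (col V c)) {x : Fin 3 → ℝ}
    (h1 : 0 < det3 x (col V b) (col V c)) (h2 : 0 < det3 (col V a) x (col V c))
    (h3 : 0 < det3 (col V a) (col V b) x) : x ∈ interior (cone V {a, b, c}) := by
  have k1 : Continuous fun y : Fin 3 → ℝ => det3 y (col V b) (col V c) := by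
    unfold det3
    fun_prop
  have k2 : Continuous fun y : Fin 3 → ℝ => det3 (col V a) y (col V c) := by
    unfold det3
    fun_prop
  have k3 : Continuous fun y : Fin 3 → ℝ => det3 (col V a) (col V b) y := by
    unfold det3
    fun_prop
  have hU : IsOpen {y : Fin 3 → ℝ | 0 < det3 y (col V b) (col V c) ∧
      0 < det3 (col V a) y (col V c) ∧ 0 < det3 (col V a) (col V b) y} :=
    (isOpen_lt continuous_const k1).inter
      ((isOpen_lt continuous_const k2).inter (isOpen_lt continuous_const k3))
  refine interior_maximal ?_ hU ⟨h1, h2, h3⟩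
  rintro y ⟨y1, y2, y3⟩
  refine ⟨fun i => if i = a then det3 y (col V b) (col V c) / det3 (col V a) (col V b) (col V c)
    else if i = b then det3 (col V a) y (col V c) / det3 (col V a) (col V b) (col V c)
    else det3 (col V a) (col V b) y / det3 (col V a) (col V b) (col V c), fun i => ?_, ?_⟩
  · dsimp only
    split
    · exact (div_pos y1 hD).le
    · split
      · exact (div_pos y2 hD).le
      · exact (div_pos y3 hD).le
  · rw [Finset.sum_insert (by simp [hab, hac]), Finset.sum_insert (by simp [hbc]),
      Finset.sum_singleton]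
    simp only [if_true, if_neg hab.symm, if_neg hac.symm, if_neg hbc.symm]
    rw [div_eq_inv_mul, div_eq_inv_mul, div_eq_inv_mul, mul_smul, mul_smul, mul_smul, ← smul_add,
      ← smul_add, ← add_assoc, ← cramer, smul_smul, inv_mul_cancel₀ hD.ne', one_smul]

theorem overlap : ∃ I ∈ C, ∃ J ∈ C, I ≠ J ∧
    (interior (cone V I) ∩ interior (cone V J)).Nonempty := by
  refine ⟨tset (0, 1, 5), mem_C.2 ⟨_, by decide +kernel, rfl⟩, tset (2, 8, 13),
    mem_C.2 ⟨_, by decide +kernel, rfl⟩, by decide, ![-57, -111, -68], ?_, ?_⟩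
  · refine mem_interior (by decide) (by decide) (by decide) ?_ ?_ ?_ ?_ <;>
      simp [det3, col, V0, V1, V5] <;> norm_num
  · refine mem_interior (by decide) (by decide) (by decide) ?_ ?_ ?_ ?_ <;>
      simp [det3, col, V2, V8, V13] <;> norm_num

end Pool.Agent.R798.Pseudofan
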