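import Pool.Agent.R798.Pseudofan.Data

/-!
# The collection is a minimal pseudofan and not the set of maximal cones of a fan
-/

set_option autoImplicit false
set_option linter.unusedSimpArgs false

namespace Pool.Agent.R798.Pseudofan

theorem sorted_TL {t : Fin 17 × Fin 17 × Fin 17} (ht : t ∈ TL) : t.1 < t.2.1 ∧ t.2.1 < t.2.2 := by
  have := List.all_eq_true.1 c1 t ht
  rw [Bool.and_eq_true, decide_eq_true_eq, decide_eq_true_eq] at this
  exact this

theorem chkM_of_B {a b c : Fin 17} (h : chkMB a b c = true) : chkM V a b c := by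
  unfold chkMB at h
  rw [Bool.and_eq_true, List.all_eq_true] at h
  obtain ⟨h0, h1⟩ := h
  refine ⟨?_, fun j => ?_⟩
  · intro h2
    rw [h2] at h0
    simp at h0
  · have := h1 j (List.mem_finRange j)
    simp only [Bool.or_eq_true, beq_iff_eq, decide_eq_true_eq] at this
    tauto

theorem inM_TL {t : Fin 17 × Fin 17 × Fin 17} (ht : t ∈ TL) : InM V (tset t) := by
  have hs := sorted_TL ht
  exact inM_of (chkM_of_B (List.all_eq_true.1 c2 t ht)) hs.1.ne (hs.1.trans hs.2).ne hs.2.ne

theorem tset_third {t : Fin 17 × Fin 17 × Fin 17} (hs : t.1 < t.2.1 ∧ t.2.1 < t.2.2)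
    {p q : Fin 17} (hpq : p ≠ q) (hp : p ∈ tset t) (hq : q ∈ tset t) :
    tset t = {p, q, third t p q} ∧ third t p q ≠ p ∧ third t p q ≠ q := by
  obtain ⟨a, b, c⟩ := t
  obtain ⟨h1, h2⟩ := hs
  dsimp only at h1 h2
  have hab : a ≠ b := h1.ne
  have hbc : b ≠ c := h2.ne
  have hac : a ≠ c := (h1.trans h2).ne
  simp only [tset, Finset.mem_insert, Finset.mem_singleton] at hp hq
  have e : ∀ x y : Fin 17, x ≠ y → (x == y) = false := fun x y h => beq_false_of_ne h
  rcases hp with rfl | rfl | rfl <;> rcases hq with rfl | rfl | rfl <;>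
    first
    | exact absurd rfl hpq
    | (refine ⟨?_, ?_, ?_⟩
       · ext x
         simp [tset, third, e _ _ hab, e _ _ hbc, e _ _ hac, e _ _ hab.symm, e _ _ hbc.symm,
           e _ _ hac.symm]
         try tauto
       · simp [third, e _ _ hab, e _ _ hbc, e _ _ hac, e _ _ hab.symm, e _ _ hbc.symm,
           e _ _ hac.symm, hab, hbc, hac, hab.symm, hbc.symm, hac.symm]
       · simp [third, e _ _ hab, e _ _ hbc, e _ _ hac, e _ _ hab.symm, e _ _ hbc.symm,
           e _ _ hac.symm, hab, hbc, hac, hab.symm, hbc.symm, hac.symm])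

theorem erase_third {m : ℕ} {p q i : Fin m} (h1 : i ≠ p) (h2 : i ≠ q) :
    ({p, q, i} : Finset (Fin m)).erase i = {p, q} := by
  ext x
  simp only [Finset.mem_erase, Finset.mem_insert, Finset.mem_singleton]
  constructor
  · rintro ⟨h, h' | h' | h'⟩
    · exact Or.inl h'
    · exact Or.inr h'
    · exact absurd h' h
  · rintro (rfl | rfl)
    · exact ⟨fun h => h1 h.symm, Or.inl rfl⟩
    · exact ⟨fun h => h2 h.symm, Or.inr (Or.inl rfl)⟩

theorem hasFacet_pair {t : Fin 17 × Fin 17 × Fin 17} (ht : t ∈ TL) {p q : Fin 17} (hpq : p ≠ q)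
    (hp : p ∈ tset t) (hq : q ∈ tset t) : HasFacet V (tset t) (cone V {p, q}) := by
  obtain ⟨h1, h2, h3⟩ := tset_third (sorted_TL ht) hpq hp hq
  refine ⟨third t p q, ?_, ?_⟩
  · rw [h1]
    simp
  · rw [h1]
    rw [erase_third h2 h3]

theorem mem_of_hasFacet {t : Fin 17 × Fin 17 × Fin 17} (ht : t ∈ TL) {p q i : Fin 17}
    (hi1 : i ≠ p) (hi2 : i ≠ q) (hI : tset t = {p, q, i}) {J : Finset (Fin 17)} (hJ : J ∈ C)
    (hf : HasFacet V J (cone V {p, q})) : p ∈ J ∧ q ∈ J := by
  obtain ⟨j, hj, hc⟩ := hf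
  obtain ⟨s, hs, rfl⟩ := mem_C.1 hJ
  have hi : i ∈ tset t := by
    rw [hI]
    simp
  have he : (tset t).erase i = {p, q} := by
    rw [hI, erase_third hi1 hi2]
  have := facet_eq (inM_TL ht) (inM_TL hs) hi hj (by rw [he, hc])
  rw [he] at this
  constructor
  · exact Finset.mem_of_mem_erase (this ▸ Finset.mem_insert_self p {q} : p ∈ (tset s).erase j)
  · exact Finset.mem_of_mem_erase
      (this ▸ Finset.mem_insert_of_mem (Finset.mem_singleton_self q) : q ∈ (tset s).erase j)

theorem facet_step {t : Fin 17 × Fin 17 × Fin 17} (ht : t ∈ TL) (p q i : Fin 17) (hpq : p ≠ q)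
    (hi1 : i ≠ p) (hi2 : i ≠ q) (hI : tset t = {p, q, i}) (hc : chkF t p q i = true) :
    ∃ J ∈ C, J ≠ tset t ∧ HasFacet V J (cone V {p, q}) ∧
      (∀ J' ∈ C, J' ≠ tset t → HasFacet V J' (cone V {p, q}) → J' = J) ∧
        Opposite V (tset t) J (cone V {p, q}) := by
  unfold chkF at hc
  rw [List.any_eq_true] at hc
  obtain ⟨t', ht', h⟩ := hc
  rw [Bool.and_eq_true, Bool.and_eq_true, Bool.and_eq_true, Bool.and_eq_true, List.all_eq_true,
    decide_eq_true_eq, memB_iff, memB_iff] at h
  obtain ⟨⟨⟨⟨hp, hq⟩, hi⟩, hD⟩, hall⟩ := h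
  have hi' : i ∉ tset t' := by
    intro h
    rw [memB_iff.2 h] at hi
    simp at hi
  obtain ⟨h1, h2, h3⟩ := tset_third (sorted_TL ht') hpq hp hq
  refine ⟨tset t', mem_C.2 ⟨t', ht', rfl⟩, ?_, hasFacet_pair ht' hpq hp hq, ?_, ?_⟩
  · intro h
    apply hi'
    rw [h, hI]
    simp
  · intro J' hJ' hne hf
    obtain ⟨hp', hq'⟩ := mem_of_hasFacet ht hi1 hi2 hI hJ' hf
    obtain ⟨s, hs, rfl⟩ := mem_C.1 hJ'
    have := hall s hs
    rw [Bool.or_eq_true, Bool.or_eq_true, memB_iff.2 hp', memB_iff.2 hq', beq_iff_eq,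
      beq_iff_eq] at this
    rcases this with (h | h) | h
    · simp at h
    · exact absurd (by rw [h]) hne
    · rw [h]
  · rw [hI, h1]
    exact opposite_of hD

theorem isPseudofan_C : IsPseudofan V C where
  sub := by
    intro I hI
    obtain ⟨t, ht, rfl⟩ := mem_C.1 hI
    exact inM_TL ht
  cover := by
    intro i
    have := List.all_eq_true.1 c4 i (List.mem_finRange i)
    rw [List.any_eq_true] at this
    obtain ⟨t, ht, h⟩ := this
    exact ⟨tset t, mem_C.2 ⟨t, ht, rfl⟩, memB_iff.1 h⟩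
  facet := by
    intro I hI f hf
    obtain ⟨t, ht, rfl⟩ := mem_C.1 hI
    obtain ⟨i, hi, rfl⟩ := hf
    have hs := sorted_TL ht
    have h3 := List.all_eq_true.1 c3 t ht
    rw [Bool.and_eq_true, Bool.and_eq_true] at h3
    obtain ⟨⟨ha, hb⟩, hc⟩ := h3
    obtain ⟨a, b, c⟩ := t
    dsimp only at hs ha hb hc
    have hab : a ≠ b := hs.1.ne
    have hbc : b ≠ c := hs.2.ne
    have hac : a ≠ c := (hs.1.trans hs.2).ne
    have e1 : tset (a, b, c) = {b, c, a} := by
      ext x
      simp [tset]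
      tauto
    have e2 : tset (a, b, c) = {a, c, b} := by
      ext x
      simp [tset]
      tauto
    have e3 : tset (a, b, c) = {a, b, c} := rfl
    have hi' := hi
    simp only [tset, Finset.mem_insert, Finset.mem_singleton] at hi'
    rcases hi' with rfl | rfl | rfl
    · have he : (tset (i, b, c)).erase i = {b, c} := by rw [e1, erase_third hab hac]
      rw [he]
      exact facet_step ht b c i hbc hab hac e1 ha
    · have he : (tset (a, i, c)).erase i = {a, c} := by rw [e2, erase_third hab.symm hbc]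
      rw [he]
      exact facet_step ht a c i hac hab.symm hbc e2 hb
    · have he : (tset (a, b, i)).erase i = {a, b} := by rw [e3, erase_third hac.symm hbc.symm]
      rw [he]
      exact facet_step ht a b i hab hac.symm hbc.symm e3 hc

/-- a sub-pseudofan is closed under adjacency -/
theorem closure_step {C' : Finset (Finset (Fin 17))} (hC' : IsPseudofan V C') (hsub : C' ⊆ C)
    {s t : Fin 17 × Fin 17 × Fin 17} (hs : s ∈ TL) (ht : t ∈ TL) {p q : Fin 17} (hpq : p ≠ q)
    (hps : p ∈ tset s) (hqs : q ∈ tset s) (hpt : p ∈ tset t) (hqt : q ∈ tset t)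
    (h : tset s ∈ C') : tset t ∈ C' := by
  by_cases hst : tset t = tset s
  · rw [hst]
    exact h
  · obtain ⟨J, hJ, hne, hf, -, -⟩ := hC'.facet (tset s) h _ (hasFacet_pair hs hpq hps hqs)
    obtain ⟨J0, -, -, -, huniq, -⟩ := isPseudofan_C.facet (tset s) (hsub h) _
      (hasFacet_pair hs hpq hps hqs)
    have h1 := huniq J (hsub hJ) hne hf
    have h2 := huniq (tset t) (mem_C.2 ⟨t, ht, rfl⟩) hst (hasFacet_pair ht hpq hpt hqt)
    rw [h2, ← h1]
    exact hJ

theorem chkP_common {s t : Fin 17 × Fin 17 × Fin 17} (hs : s.1 < s.2.1 ∧ s.2.1 < s.2.2)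
    (h : chkP s t = true) :
    ∃ p q : Fin 17, p ≠ q ∧ p ∈ tset s ∧ q ∈ tset s ∧ p ∈ tset t ∧ q ∈ tset t := by
  unfold chkP at h
  rw [Bool.or_eq_true, Bool.or_eq_true, Bool.and_eq_true, Bool.and_eq_true, Bool.and_eq_true,
    memB_iff, memB_iff, memB_iff] at h
  have m1 : s.1 ∈ tset s := by simp [tset]
  have m2 : s.2.1 ∈ tset s := by simp [tset]
  have m3 : s.2.2 ∈ tset s := by simp [tset]
  rcases h with (⟨h1, h2⟩ | ⟨h1, h2⟩) | ⟨h1, h2⟩
  · exact ⟨_, _, hs.1.ne, m1, m2, h1, h2⟩
  · exact ⟨_, _, (hs.1.trans hs.2).ne, m1, m3, h1, h2⟩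
  · exact ⟨_, _, hs.2.ne, m2, m3, h1, h2⟩

theorem TL_getD_mem {k : ℕ} (hk : k < 60) : TL.getD k (0, 0, 0) ∈ TL := by
  have : k < TL.length := by rw [c5len]; exact hk
  rw [List.getD_eq_getElem _ _ this]
  exact List.getElem_mem this

theorem all_iff {C' : Finset (Finset (Fin 17))} (hC' : IsPseudofan V C') (hsub : C' ⊆ C) :
    ∀ k, k < 60 → (tset (TL.getD k (0, 0, 0)) ∈ C' ↔ tset (TL.getD 0 (0, 0, 0)) ∈ C') := by
  intro k
  induction k using Nat.strong_induction_on with
  | _ k ih =>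
    intro hk
    have h5 := List.all_eq_true.1 c5 k (List.mem_range.2 hk)
    rw [Bool.or_eq_true, Bool.and_eq_true, decide_eq_true_eq, beq_iff_eq] at h5
    rcases h5 with h0 | ⟨hlt, hP⟩
    · rw [h0]
    · have hk' : parents.getD k 0 < 60 := lt_trans hlt hk
      rw [← ih _ hlt hk']
      have hs := TL_getD_mem hk
      have ht := TL_getD_mem hk'
      obtain ⟨p, q, hpq, h1, h2, h3, h4⟩ := chkP_common (sorted_TL hs) hP
      exact ⟨fun h => closure_step hC' hsub hs ht hpq h1 h2 h3 h4 h,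
        fun h => closure_step hC' hsub ht hs hpq h3 h4 h1 h2 h⟩

theorem minimal_C : ∀ C', C' ⊂ C → ¬ IsPseudofan V C' := by
  intro C' hss hC'
  obtain ⟨I, hI, -⟩ := hC'.cover 0
  have key : ∀ t ∈ TL, ∃ k, k < 60 ∧ TL.getD k (0, 0, 0) = t := by
    intro t ht
    obtain ⟨k, hk, he⟩ := List.mem_iff_getElem.1 ht
    exact ⟨k, by rw [← c5len]; exact hk, by rw [List.getD_eq_getElem _ _ hk, he]⟩
  have h0 : tset (TL.getD 0 (0, 0, 0)) ∈ C' := by
    obtain ⟨t, ht, rfl⟩ := mem_C.1 (hss.1 hI)
    obtain ⟨k, hk, rfl⟩ := key t ht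
    exact (all_iff hC' hss.1 k hk).1 hI
  apply hss.2
  intro J hJ
  obtain ⟨t, ht, rfl⟩ := mem_C.1 hJ
  obtain ⟨k, hk, rfl⟩ := key t ht
  exact (all_iff hC' hss.1 k hk).2 h0

/-! ### The matrix is an `F`-matrix -/

theorem V0 : V 0 = ![-53, 9, -26] := by decide +kernel
theorem V1 : V 1 = ![7, -58, -16] := by decide +kernel
theorem V2 : V 2 = ![-26, -5, 54] := by decide +kernel
theorem V5 : V 5 = ![-25, 54, 6] := by decide +kernel
theorem V8 : V 8 = ![-41, -43, 8] := by decide +kernel
theorem V10 : V 10 = ![39, 44, -13] := by decide +kernel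
theorem V13 : V 13 = ![13, -17, -56] := by decide +kernel

theorem relation : (103537 : ℝ) • col V 0 + (163069 : ℝ) • col V 1 + (148891 : ℝ) • col V 2 +
    (210696 : ℝ) • col V 10 = 0 := by
  ext k
  fin_cases k <;> simp [col, V0, V1, V2, V10] <;> norm_num

theorem generate_V : cone V Finset.univ = Set.univ := by
  refine Set.eq_univ_of_forall fun x => ?_
  apply cone_mono V (Finset.subset_univ ({0, 1, 2, 10} : Finset (Fin 17)))
  obtain ⟨α, β, γ, hx⟩ : ∃ α β γ : ℝ, x = α • col V 0 + β • col V 1 + γ • col V 2 := by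
    have hc := cramer (col V 0) (col V 1) (col V 2) x
    have hD : det3 (col V 0) (col V 1) (col V 2) ≠ 0 := by
      rw [det3_col]
      have : D V 0 1 2 ≠ 0 := by decide +kernel
      exact_mod_cast this
    refine ⟨det3 x (col V 1) (col V 2) / det3 (col V 0) (col V 1) (col V 2),
      det3 (col V 0) x (col V 2) / det3 (col V 0) (col V 1) (col V 2),
      det3 (col V 0) (col V 1) x / det3 (col V 0) (col V 1) (col V 2), ?_⟩
    rw [div_eq_inv_mul, div_eq_inv_mul, div_eq_inv_mul, mul_smul, mul_smul, mul_smul, ← smul_add,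
      ← smul_add, ← hc, smul_smul, inv_mul_cancel₀ hD, one_smul]
  set T : ℝ := |α| + |β| + |γ| with hT
  have hα := neg_abs_le α
  have hβ := neg_abs_le β
  have hγ := neg_abs_le γ
  have hα' := abs_nonneg α
  have hβ' := abs_nonneg β
  have hγ' := abs_nonneg γ
  refine ⟨fun i => if i = 0 then α + 103537 * T else if i = 1 then β + 163069 * T else
    if i = 2 then γ + 148891 * T else 210696 * T, fun i => ?_, ?_⟩
  · dsimp only
    split
    · linarith
    · split
      · linarith
      · split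
        · linarith
        · linarith
  · rw [Finset.sum_insert (by decide), Finset.sum_insert (by decide),
      Finset.sum_insert (by decide), Finset.sum_singleton]
    simp only [if_true, if_neg (by decide : ¬ (1 : Fin 17) = 0), if_neg (by decide : ¬ (2 : Fin 17) = 0),
      if_neg (by decide : ¬ (2 : Fin 17) = 1), if_neg (by decide : ¬ (10 : Fin 17) = 0),
      if_neg (by decide : ¬ (10 : Fin 17) = 1), if_neg (by decide : ¬ (10 : Fin 17) = 2)]
    have hr := congrArg (fun y => T • y) relation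
    simp only [smul_add, smul_smul, smul_zero] at hr
    rw [hx]
    have : ∀ A B G R : Fin 3 → ℝ, (T * 103537) • A + (T * 163069) • B + (T * 148891) • G +
        (T * 210696) • R = 0 → α • A + β • B + γ • G = (α + 103537 * T) • A +
          ((β + 163069 * T) • B + ((γ + 148891 * T) • G + (210696 * T) • R)) := by
      intro A B G R h
      have h' : (α + 103537 * T) • A +
          ((β + 163069 * T) • B + ((γ + 148891 * T) • G + (210696 * T) • R))
          = α • A + β • B + γ • G + ((T * 103537) • A + (T * 163069) • B + (T * 148891) • G +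
            (T * 210696) • R) := by
        ext k
        simp only [Pi.add_apply, Pi.smul_apply, smul_eq_mul]
        ring
      rw [h', h, add_zero]
    exact this _ _ _ _ hr

theorem isFMatrix_V : IsFMatrix V where
  rank := by
    rw [eq_top_iff]
    intro x _
    have hx : x ∈ cone V Finset.univ := by
      rw [generate_V]
      trivial
    obtain ⟨a, -, rfl⟩ := hx
    exact Submodule.sum_mem _ fun i _ =>
      Submodule.smul_mem _ _ (Submodule.subset_span ⟨i, rfl⟩)
  ne_zero := by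
    intro i h
    have := List.all_eq_true.1 c7 i (List.mem_finRange i)
    rw [beq_iff_eq, h] at this
    simp at this
  not_multiple := by
    rintro i j hij ⟨c, -, hc⟩
    have h6 := List.all_eq_true.1 (List.all_eq_true.1 c6 i (List.mem_finRange i)) j
      (List.mem_finRange j)
    simp only [Bool.or_eq_true, beq_iff_eq, Bool.not_eq_true', beq_eq_false_iff_ne] at h6
    have hk : ∀ k, (V i k : ℝ) = c * (V j k : ℝ) := fun k => congrFun hc k
    have hz : ∀ k l, V i k * V j l - V i l * V j k = 0 := by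
      intro k l
      have : ((V i k * V j l - V i l * V j k : ℤ) : ℝ) = 0 := by
        push_cast
        rw [hk k, hk l]
        ring
      exact_mod_cast this
    rcases h6 with ((h | h) | h) | h
    · exact hij h
    · exact h (hz _ _)
    · exact h (hz _ _)
    · exact h (hz _ _)
  generate := generate_V
  coprime := by
    intro i d hd
    have := List.all_eq_true.1 c7 i (List.mem_finRange i)
    rw [beq_iff_eq] at this
    have h1 : d ∣ ((Int.gcd (Int.gcd (V i 0) (V i 1)) (V i 2) : ℕ) : ℤ) :=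
      Int.dvd_coe_gcd (Int.dvd_coe_gcd (hd 0) (hd 1)) (hd 2)
    rw [this] at h1
    exact isUnit_of_dvd_one (by simpa using h1)

/-! ### There is no fan -/

theorem relation_p : (12640 : ℝ) • ((1 : ℝ) • col V 0 + (3 : ℝ) • col V 1 + (1 : ℝ) • col V 5) =
    (12896 : ℝ) • col V 2 + (19068 : ℝ) • col V 8 + (30508 : ℝ) • col V 13 := by
  ext k
  fin_cases k <;> simp [col, V0, V1, V2, V5, V8, V13] <;> norm_num

theorem no_fan : ¬ ∃ S ∈ SF V, conesOfDim S 3 = {σ | ∃ I ∈ C, σ = cone V I} := by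
  rintro ⟨S, ⟨hS, -⟩, hdim⟩
  have t1 : ((0, 1, 5) : Fin 17 × Fin 17 × Fin 17) ∈ TL := by decide +kernel
  have t2 : ((2, 8, 13) : Fin 17 × Fin 17 × Fin 17) ∈ TL := by decide +kernel
  have m1 : cone V (tset (0, 1, 5)) ∈ S := by
    have : cone V (tset (0, 1, 5)) ∈ conesOfDim S 3 := by
      rw [hdim]
      exact ⟨_, mem_C.2 ⟨_, t1, rfl⟩, rfl⟩
    exact this.1
  have m2 : cone V (tset (2, 8, 13)) ∈ S := by
    have : cone V (tset (2, 8, 13)) ∈ conesOfDim S 3 := by
      rw [hdim]
      exact ⟨_, mem_C.2 ⟨_, t2, rfl⟩, rfl⟩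
    exact this.1
  obtain ⟨⟨u, hu, hface⟩, -⟩ := hS.inter _ m1 _ m2
  have h0 : col V 0 ∈ cone V (tset (0, 1, 5)) := col_mem_cone V (by simp [tset])
  have h1 : col V 1 ∈ cone V (tset (0, 1, 5)) := col_mem_cone V (by simp [tset])
  have h5 : col V 5 ∈ cone V (tset (0, 1, 5)) := col_mem_cone V (by simp [tset])
  have hp1 : (1 : ℝ) • col V 0 + (3 : ℝ) • col V 1 + (1 : ℝ) • col V 5 ∈
      cone V (tset (0, 1, 5)) := by
    refine ⟨fun i => if i = 1 then 3 else 1, fun i => by dsimp only; split <;> norm_num, ?_⟩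
    rw [tset, Finset.sum_insert (by decide), Finset.sum_insert (by decide),
      Finset.sum_singleton]
    simp only [if_true, if_neg (by decide : ¬ (0 : Fin 17) = 1),
      if_neg (by decide : ¬ (5 : Fin 17) = 1)]
    rw [add_assoc]
  have hp2 : (1 : ℝ) • col V 0 + (3 : ℝ) • col V 1 + (1 : ℝ) • col V 5 ∈
      cone V (tset (2, 8, 13)) := by
    refine ⟨fun i => if i = 2 then 12896 / 12640 else if i = 8 then 19068 / 12640 else
      30508 / 12640, fun i => by dsimp only; split; norm_num; split <;> norm_num, ?_⟩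
    rw [tset, Finset.sum_insert (by decide), Finset.sum_insert (by decide),
      Finset.sum_singleton]
    simp only [if_true, if_neg (by decide : ¬ (8 : Fin 17) = 2),
      if_neg (by decide : ¬ (13 : Fin 17) = 2), if_neg (by decide : ¬ (13 : Fin 17) = 8)]
    have h := congrArg (fun y => (1 / 12640 : ℝ) • y) relation_p
    rw [smul_smul, show (1 / 12640 : ℝ) * 12640 = 1 by norm_num, one_smul] at h
    rw [h]
    ext k
    simp only [Pi.add_apply, Pi.smul_apply, smul_eq_mul]
    ring
  have hpz : u ((1 : ℝ) • col V 0 + (3 : ℝ) • col V 1 + (1 : ℝ) • col V 5) = 0 := by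
    have : (1 : ℝ) • col V 0 + (3 : ℝ) • col V 1 + (1 : ℝ) • col V 5 ∈
        cone V (tset (0, 1, 5)) ∩ cone V (tset (2, 8, 13)) := ⟨hp1, hp2⟩
    rw [hface] at this
    exact this.2
  rw [map_add, map_add, map_smul, map_smul, map_smul, smul_eq_mul, smul_eq_mul,
    smul_eq_mul] at hpz
  have hu0 := hu _ h0
  have hu1 := hu _ h1
  have hu5 := hu _ h5
  have hz : u (col V 0) = 0 := by linarith
  have hmem : col V 0 ∈ cone V (tset (0, 1, 5)) ∩ cone V (tset (2, 8, 13)) := by
    rw [hface]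
    exact ⟨h0, hz⟩
  have := (inM_TL t2).2.2 0 hmem.2
  revert this
  decide

end Pool.Agent.R798.Pseudofan
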