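import Pool.Agent.R798.Pseudofan.Defs

/-!
# Cones in dimension three
-/

set_option autoImplicit false

namespace Pool.Agent.R798.Pseudofan

variable {m : ℕ}

/-- the determinant of three vectors -/
def det3 (a b c : Fin 3 → ℝ) : ℝ :=
  a 0 * (b 1 * c 2 - b 2 * c 1) - a 1 * (b 0 * c 2 - b 2 * c 0) + a 2 * (b 0 * c 1 - b 1 * c 0)

/-- the determinant of three columns -/
def D (V : Fin m → Fin 3 → ℤ) (i j k : Fin m) : ℤ :=
  V i 0 * (V j 1 * V k 2 - V j 2 * V k 1) - V i 1 * (V j 0 * V k 2 - V j 2 * V k 0) +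
    V i 2 * (V j 0 * V k 1 - V j 1 * V k 0)

theorem det3_col (V : Fin m → Fin 3 → ℤ) (i j k : Fin m) :
    det3 (col V i) (col V j) (col V k) = (D V i j k : ℝ) := by
  simp only [det3, col, D]
  push_cast
  ring

theorem cramer (a b c x : Fin 3 → ℝ) :
    det3 a b c • x = det3 x b c • a + det3 a x c • b + det3 a b x • c := by
  ext k
  fin_cases k <;> simp [det3] <;> ring

/-- the functional `x ↦ det (a, b, x)` -/
noncomputable def functional (a b : Fin 3 → ℝ) : (Fin 3 → ℝ) →ₗ[ℝ] ℝ where
  toFun x := det3 a b x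
  map_add' x y := by simp [det3]; ring
  map_smul' r x := by simp [det3]; ring

theorem functional_apply (a b x : Fin 3 → ℝ) : functional a b x = det3 a b x := rfl

section

variable {n : ℕ}

theorem col_mem_cone (V : Fin m → Fin n → ℤ) {I : Finset (Fin m)} {i : Fin m} (h : i ∈ I) :
    col V i ∈ cone V I := by
  refine ⟨fun j => if j = i then 1 else 0, fun j => by dsimp only; split <;> norm_num, ?_⟩
  rw [Finset.sum_eq_single i]
  · simp
  · intro j _ hj
    simp [hj]
  · intro hi
    exact absurd h hi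

theorem cone_mono (V : Fin m → Fin n → ℤ) {I J : Finset (Fin m)} (h : I ⊆ J) :
    cone V I ⊆ cone V J := by
  rintro x ⟨a, ha, rfl⟩
  refine ⟨fun j => if j ∈ I then a j else 0, fun j => ?_, ?_⟩
  · dsimp only
    split
    · exact ha j
    · exact le_rfl
  · rw [← Finset.sum_subset h]
    · refine Finset.sum_congr rfl fun i hi => ?_
      simp [hi]
    · intro j _ hj
      simp [hj]

/-- a functional which is nonnegative on the generators is nonnegative on the cone -/
theorem cone_nonneg {V : Fin m → Fin n → ℤ} {I : Finset (Fin m)} {u : (Fin n → ℝ) →ₗ[ℝ] ℝ}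
    (h : ∀ i ∈ I, 0 ≤ u (col V i)) {x : Fin n → ℝ} (hx : x ∈ cone V I) : 0 ≤ u x := by
  obtain ⟨a, ha, rfl⟩ := hx
  rw [map_sum]
  refine Finset.sum_nonneg fun i hi => ?_
  rw [map_smul, smul_eq_mul]
  exact mul_nonneg (ha i) (h i hi)

theorem cone_nonpos {V : Fin m → Fin n → ℤ} {I : Finset (Fin m)} {u : (Fin n → ℝ) →ₗ[ℝ] ℝ}
    (h : ∀ i ∈ I, u (col V i) ≤ 0) {x : Fin n → ℝ} (hx : x ∈ cone V I) : u x ≤ 0 := by
  obtain ⟨a, ha, rfl⟩ := hx
  rw [map_sum]
  refine Finset.sum_nonpos fun i hi => ?_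
  rw [map_smul, smul_eq_mul]
  exact mul_nonpos_of_nonneg_of_nonpos (ha i) (h i hi)

theorem cone_zero {V : Fin m → Fin n → ℤ} {I : Finset (Fin m)} {u : (Fin n → ℝ) →ₗ[ℝ] ℝ}
    (h : ∀ i ∈ I, u (col V i) = 0) {x : Fin n → ℝ} (hx : x ∈ cone V I) : u x = 0 :=
  le_antisymm (cone_nonpos (fun i hi => (h i hi).le) hx)
    (cone_nonneg (fun i hi => (h i hi).ge) hx)

/-- facets with equal cones have equal index sets -/
theorem facet_sub {V : Fin m → Fin n → ℤ} {I J : Finset (Fin m)} (hI : InM V I) {i j : Fin m}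
    (hi : i ∈ I) (h : cone V (I.erase i) = cone V (J.erase j)) : J.erase j ⊆ I.erase i := by
  intro k hk
  have h1 : col V k ∈ cone V (I.erase i) := by
    rw [h]
    exact col_mem_cone V hk
  have hkI : k ∈ I := hI.2.2 k (cone_mono V (Finset.erase_subset i I) h1)
  rw [Finset.mem_erase]
  refine ⟨?_, hkI⟩
  rintro rfl
  obtain ⟨a, ha, hs⟩ := h1
  have h2 : ∑ l ∈ I, (if l = k then (-1 : ℝ) else a l) • col V l = 0 := by
    rw [← Finset.insert_erase hkI, Finset.sum_insert (Finset.notMem_erase k I), if_pos rfl]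
    have h3 : ∑ l ∈ I.erase k, (if l = k then (-1 : ℝ) else a l) • col V l
        = ∑ l ∈ I.erase k, a l • col V l := by
      refine Finset.sum_congr rfl fun l hl => ?_
      rw [if_neg (Finset.ne_of_mem_erase hl)]
    rw [h3, ← hs]
    simp
  have h4 := hI.2.1 _ h2 k hkI
  simp at h4

theorem facet_eq {V : Fin m → Fin n → ℤ} {I J : Finset (Fin m)} (hI : InM V I) (hJ : InM V J)
    {i j : Fin m} (hi : i ∈ I) (hj : j ∈ J) (h : cone V (I.erase i) = cone V (J.erase j)) :
    I.erase i = J.erase j :=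
  Finset.Subset.antisymm (facet_sub hJ hj h.symm) (facet_sub hI hi h)

end

/-- the integer test for a cone of the family `𝓜` -/
def chkM (V : Fin m → Fin 3 → ℤ) (a b c : Fin m) : Prop :=
  D V a b c ≠ 0 ∧ ∀ j : Fin m, (j = a ∨ j = b ∨ j = c) ∨
    (D V j b c * D V a b c < 0 ∨ D V a j c * D V a b c < 0 ∨ D V a b j * D V a b c < 0)

theorem det3_lin1 (a b c x : Fin 3 → ℝ) (p q r : ℝ) (h : x = p • a + q • b + r • c) :
    det3 x b c = p * det3 a b c ∧ det3 a x c = q * det3 a b c ∧
      det3 a b x = r * det3 a b c := by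
  subst h
  refine ⟨?_, ?_, ?_⟩ <;> simp [det3] <;> ring

theorem inM_of {V : Fin m → Fin 3 → ℤ} {a b c : Fin m} (h : chkM V a b c) (hab : a ≠ b)
    (hac : a ≠ c) (hbc : b ≠ c) : InM V {a, b, c} := by
  obtain ⟨h0, hj⟩ := h
  have hD : det3 (col V a) (col V b) (col V c) ≠ 0 := by
    rw [det3_col]
    exact_mod_cast h0
  have hsum : ∀ f : Fin m → ℝ, ∑ i ∈ ({a, b, c} : Finset (Fin m)), f i • col V i
      = f a • col V a + f b • col V b + f c • col V c := by
    intro f
    rw [Finset.sum_insert (by simp [hab, hac]), Finset.sum_insert (by simp [hbc]),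
      Finset.sum_singleton, add_assoc]
  refine ⟨?_, ?_, ?_⟩
  · rw [Finset.card_insert_of_notMem (by simp [hab, hac]),
      Finset.card_insert_of_notMem (by simp [hbc]), Finset.card_singleton]
  · intro f hf
    rw [hsum] at hf
    obtain ⟨e1, e2, e3⟩ := det3_lin1 _ _ _ _ _ _ _ hf.symm
    have z1 : det3 (0 : Fin 3 → ℝ) (col V b) (col V c) = 0 := by simp [det3]
    have z2 : det3 (col V a) (0 : Fin 3 → ℝ) (col V c) = 0 := by simp [det3]
    have z3 : det3 (col V a) (col V b) (0 : Fin 3 → ℝ) = 0 := by simp [det3]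
    rw [z1] at e1
    rw [z2] at e2
    rw [z3] at e3
    intro i hi
    simp only [Finset.mem_insert, Finset.mem_singleton] at hi
    rcases hi with rfl | rfl | rfl
    · exact (mul_eq_zero.1 e1.symm).resolve_right hD
    · exact (mul_eq_zero.1 e2.symm).resolve_right hD
    · exact (mul_eq_zero.1 e3.symm).resolve_right hD
  · rintro j ⟨f, hf, hx⟩
    rw [hsum] at hx
    obtain ⟨e1, e2, e3⟩ := det3_lin1 _ _ _ _ _ _ _ hx
    rw [det3_col, det3_col] at e1 e2 e3
    simp only [Finset.mem_insert, Finset.mem_singleton]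
    rcases hj j with h | h | h | h
    · exact h
    · exfalso
      have h' : ((D V j b c * D V a b c : ℤ) : ℝ) < 0 := by exact_mod_cast h
      push_cast at h'
      rw [e1] at h'
      nlinarith [hf a, mul_self_nonneg ((D V a b c : ℤ) : ℝ),
        mul_nonneg (hf a) (mul_self_nonneg ((D V a b c : ℤ) : ℝ))]
    · exfalso
      have h' : ((D V a j c * D V a b c : ℤ) : ℝ) < 0 := by exact_mod_cast h
      push_cast at h'
      rw [e2] at h'
      nlinarith [hf b, mul_self_nonneg ((D V a b c : ℤ) : ℝ),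
        mul_nonneg (hf b) (mul_self_nonneg ((D V a b c : ℤ) : ℝ))]
    · exfalso
      have h' : ((D V a b j * D V a b c : ℤ) : ℝ) < 0 := by exact_mod_cast h
      push_cast at h'
      rw [e3] at h'
      nlinarith [hf c, mul_self_nonneg ((D V a b c : ℤ) : ℝ),
        mul_nonneg (hf c) (mul_self_nonneg ((D V a b c : ℤ) : ℝ))]

/-- the two cones on the two sides of a common facet -/
theorem opposite_of {V : Fin m → Fin 3 → ℤ} {p q i l : Fin m}
    (h : D V p q i * D V p q l < 0) :
    Opposite V {p, q, i} {p, q, l} (cone V {p, q}) := by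
  have hpp : ∀ a b : Fin 3 → ℝ, det3 a b a = 0 := fun a b => by simp [det3]; ring
  have hqq : ∀ a b : Fin 3 → ℝ, det3 a b b = 0 := fun a b => by simp [det3]; ring
  have key : ∀ s : ℝ, 0 ≤ s * (D V p q i : ℝ) → s * (D V p q l : ℝ) ≤ 0 → s ≠ 0 →
      D V p q i ≠ 0 → Opposite V {p, q, i} {p, q, l} (cone V {p, q}) := by
    intro s h1 h2 hs hne
    have hval : ∀ x, (s • functional (col V p) (col V q)) x
        = s * det3 (col V p) (col V q) x := fun x => rfl
    refine ⟨s • functional (col V p) (col V q), ?_, ?_, ?_, ?_⟩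
    · intro h0
      have := hval (col V i)
      rw [h0, det3_col] at this
      have h3 : (D V p q i : ℝ) ≠ 0 := by exact_mod_cast hne
      exact mul_ne_zero hs h3 this.symm
    · intro x hx
      refine cone_zero (fun j hj => ?_) hx
      simp only [Finset.mem_insert, Finset.mem_singleton] at hj
      rw [hval]
      rcases hj with rfl | rfl
      · rw [hpp, mul_zero]
      · rw [hqq, mul_zero]
    · intro x hx
      refine cone_nonneg (fun j hj => ?_) hx
      simp only [Finset.mem_insert, Finset.mem_singleton] at hj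
      rw [hval]
      rcases hj with rfl | rfl | rfl
      · rw [hpp, mul_zero]
      · rw [hqq, mul_zero]
      · rw [det3_col]
        exact h1
    · intro x hx
      refine cone_nonpos (fun j hj => ?_) hx
      simp only [Finset.mem_insert, Finset.mem_singleton] at hj
      rw [hval]
      rcases hj with rfl | rfl | rfl
      · rw [hpp, mul_zero]
      · rw [hqq, mul_zero]
      · rw [det3_col]
        exact h2
  rcases mul_neg_iff.1 h with ⟨h1, h2⟩ | ⟨h1, h2⟩
  · have h1' : (0 : ℝ) < D V p q i := by exact_mod_cast h1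
    have h2' : (D V p q l : ℝ) < 0 := by exact_mod_cast h2
    exact key 1 (by linarith) (by linarith) one_ne_zero h1.ne'
  · have h1' : (D V p q i : ℝ) < 0 := by exact_mod_cast h1
    have h2' : (0 : ℝ) < D V p q l := by exact_mod_cast h2
    exact key (-1) (by linarith) (by linarith) (by norm_num) h1.ne

end Pool.Agent.R798.Pseudofan
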